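import Pool.Agent.Helper7.SR.Goals

/-!
# Packet SR-EX2: a simple closed alternating sequence gives a feasible exchange
-/

set_option autoImplicit false

namespace Pool.Agent.Helper15.SR

open Finset
open scoped Classical
open Pool.Agent.Helper7.SR

/-- The one-sided statement. -/
theorem side.{u} (hK : S_KRO.{u}) {α : Type u} (M : Matroid α) (R T : Finset α) {m : ℕ}
    (x y : Fin m → Option α) (hT : M.Indep (T : Set α))
    (hx : Function.Injective x) (hy : Function.Injective y)
    (hA : ∀ i, AR M R T (x i) (y i))
    (hu : ∀ τ : Equiv.Perm (Fin m), (∀ i, AR M R T (x i) (y (τ i))) → τ = 1) :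
    M.Indep (((T \ eraseNone (univ.image y)) ∪ eraseNone (univ.image x) : Finset α) : Set α) := by
  have hTE := hT.subset_ground
  set P : Fin m → Prop := fun i => (x i).isSome ∧ (y i).isSome with hP
  set e : Fin (Fintype.card {i // P i}) ≃ {i // P i} := (Fintype.equivFin {i // P i}).symm with he
  set x1 : Fin (Fintype.card {i // P i}) → α := fun j => (x (e j)).get (e j).2.1 with hx1
  set y1 : Fin (Fintype.card {i // P i}) → α := fun j => (y (e j)).get (e j).2.2 with hy1
  have ex : ∀ j, x (e j) = some (x1 j) := fun j => (Option.some_get (e j).2.1).symm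
  have ey : ∀ j, y (e j) = some (y1 j) := fun j => (Option.some_get (e j).2.2).symm
  have hAj : ∀ j, x1 j ∈ R ∧ Arc M T (x1 j) (y1 j) := by
    intro j
    have h := hA (e j)
    rw [ex, ey] at h
    exact h
  have h1 : M.Indep (((T \ univ.image y1) ∪ univ.image x1 : Finset α) : Set α) := by
    apply hK α M T _ x1 y1 hT
    · intro j j' h
      have h2 : x (e j) = x (e j') := by rw [ex, ex, h]
      exact e.injective (Subtype.ext (hx h2))
    · intro j j' h
      have h2 : y (e j) = y (e j') := by rw [ey, ey, h]
      exact e.injective (Subtype.ext (hy h2))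
    · exact fun j => (hAj j).2
    · intro τ hτ
      have h3 := hu (τ.extendDomain e) (by
        intro i
        by_cases hi : P i
        · obtain ⟨j, hj⟩ := e.surjective ⟨i, hi⟩
          have hj' : ((e j : {i // P i}) : Fin m) = i := by rw [hj]
          rw [← hj', Equiv.Perm.extendDomain_apply_image, ex, ey]
          exact ⟨(hAj j).1, hτ j⟩
        · rw [Equiv.Perm.extendDomain_apply_not_subtype _ _ hi]
          exact hA i)
      exact Equiv.Perm.extendDomain_eq_one_iff.1 h3
  set S : Finset α := (T \ univ.image y1) ∪ univ.image x1 with hS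
  have hScl : (S : Set α) ⊆ M.closure (T : Set α) := by
    intro v hv
    rcases mem_union.1 (mem_coe.1 hv) with h | h
    · exact M.subset_closure (T : Set α) hTE (mem_coe.2 (mem_sdiff.1 h).1)
    · obtain ⟨j, -, rfl⟩ := mem_image.1 h
      exact (hAj j).2.2.2.1
  have hTQ : ∀ v, v ∈ T \ eraseNone (univ.image y) → v ∈ S := by
    intro v hv
    rw [mem_sdiff, mem_eraseNone, mem_image] at hv
    refine mem_union_left _ (mem_sdiff.2 ⟨hv.1, fun h => hv.2 ?_⟩)
    obtain ⟨j, -, rfl⟩ := mem_image.1 h
    exact ⟨e j, mem_univ _, ey j⟩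
  by_cases hex : ∃ i a, x i = some a ∧ y i = none
  · obtain ⟨i0, a, hxa, hya⟩ := hex
    have h4 := hA i0
    rw [hxa, hya] at h4
    obtain ⟨-, haE, haT, hac⟩ := h4
    have h5 : a ∉ M.closure (S : Set α) := fun h =>
      hac (M.closure_subset_closure_of_subset_closure hScl h)
    have h6 : M.Indep (insert a (S : Set α)) :=
      (h1.insert_indep_iff_of_notMem (fun h => h5 (M.subset_closure (S : Set α)
        h1.subset_ground h))).2 ⟨haE, h5⟩
    refine h6.subset ?_
    intro v hv
    rcases mem_union.1 (mem_coe.1 hv) with h | h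
    · exact Set.mem_insert_of_mem _ (mem_coe.2 (hTQ v h))
    · rw [mem_eraseNone, mem_image] at h
      obtain ⟨i, -, hi⟩ := h
      rcases hyi : y i with _ | b
      · have : i = i0 := hy (hyi.trans hya.symm)
        subst this
        rw [hi] at hxa
        rw [Option.some.injEq] at hxa
        rw [hxa]
        exact Set.mem_insert _ _
      · have hPi : P i := ⟨by rw [hi]; rfl, by rw [hyi]; rfl⟩
        obtain ⟨j, hj⟩ := e.surjective ⟨i, hPi⟩
        have hj' : ((e j : {i // P i}) : Fin m) = i := by rw [hj]
        have h7 := ex j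
        rw [hj', hi, Option.some.injEq] at h7
        refine Set.mem_insert_of_mem _ (mem_coe.2 (mem_union_right _ ?_))
        rw [h7]
        exact mem_image_of_mem _ (mem_univ _)
  · refine h1.subset ?_
    intro v hv
    rcases mem_union.1 (mem_coe.1 hv) with h | h
    · exact mem_coe.2 (hTQ v h)
    · rw [mem_eraseNone, mem_image] at h
      obtain ⟨i, -, hi⟩ := h
      rcases hyi : y i with _ | b
      · exact absurd ⟨i, v, hi, hyi⟩ hex
      · have hPi : P i := ⟨by rw [hi]; rfl, by rw [hyi]; rfl⟩
        obtain ⟨j, hj⟩ := e.surjective ⟨i, hPi⟩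
        have hj' : ((e j : {i // P i}) : Fin m) = i := by rw [hj]
        have h7 := ex j
        rw [hj', hi, Option.some.injEq] at h7
        refine mem_coe.2 (mem_union_right _ ?_)
        rw [h7]
        exact mem_image_of_mem _ (mem_univ _)

/-- The image over a period. -/
theorem image_fin.{u} {α : Type u} (x : ℕ → Option α) (m : ℕ) :
    (univ.image fun i : Fin m => x i) = (range m).image x := by
  ext v
  simp only [mem_image, mem_univ, true_and, mem_range]
  constructor
  · rintro ⟨i, h⟩
    exact ⟨i, i.2, h⟩
  · rintro ⟨i, hi, h⟩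
    exact ⟨⟨i, hi⟩, h⟩

theorem image_shift.{u} {α : Type u} (x : ℕ → Option α) (m : ℕ) (hp : ∀ p, x (p + m) = x p) :
    (univ.image fun i : Fin m => x ((i : ℕ) + 1)) = (range m).image x := by
  have h0 : x m = x 0 := by
    have := hp 0
    rwa [Nat.zero_add] at this
  ext v
  simp only [mem_image, mem_univ, true_and, mem_range]
  constructor
  · rintro ⟨i, h⟩
    by_cases hi : (i : ℕ) + 1 < m
    · exact ⟨i + 1, hi, h⟩
    · have : (i : ℕ) + 1 = m := by have := i.2; omega
      rw [this, h0] at h
      exact ⟨0, by have := i.2; omega, h⟩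
  · rintro ⟨i, hi, h⟩
    by_cases h1 : i = 0
    · refine ⟨⟨m - 1, by omega⟩, ?_⟩
      show x (m - 1 + 1) = v
      rw [show m - 1 + 1 = m by omega, h0, ← h1, h]
    · refine ⟨⟨i - 1, by omega⟩, ?_⟩
      show x (i - 1 + 1) = v
      rw [show i - 1 + 1 = i by omega, h]

theorem s_ex2.{u} (h : S_KRO.{u}) : S_EX2.{u} := by
  intro α M N R T m c om x y hm hTR hM hN hC hg hx hy huM huN
  obtain ⟨hpx, hpy, hA, hB⟩ := hC
  have h0 : x m = x 0 := by
    have := hpx 0
    rwa [Nat.zero_add] at this
  have hTQ : ∀ b, some b ∈ (range m).image y → b ∈ T := by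
    intro b hb
    obtain ⟨i, -, hi⟩ := mem_image.1 hb
    have h1 := hA i
    rw [hi] at h1
    rcases hxi : x i with _ | a
    · rw [hxi] at h1
      exact h1
    · rw [hxi] at h1
      exact h1.2.1
  have hER : ∀ a, some a ∈ (range m).image x → a ∈ R \ T := by
    intro a ha
    obtain ⟨i, -, hi⟩ := mem_image.1 ha
    have h1 := hA i
    rw [hi] at h1
    rcases hyi : y i with _ | b
    · rw [hyi] at h1
      exact mem_sdiff.2 ⟨h1.1, h1.2.2.1⟩
    · rw [hyi] at h1
      exact mem_sdiff.2 ⟨h1.1, h1.2.2.1⟩
  have hinjx : Set.InjOn x (range m : Set ℕ) := fun i hi j hj hij =>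
    hx i j (mem_range.1 (mem_coe.1 hi)) (mem_range.1 (mem_coe.1 hj)) hij
  have hinjy : Set.InjOn y (range m : Set ℕ) := fun i hi j hj hij =>
    hy i j (mem_range.1 (mem_coe.1 hi)) (mem_range.1 (mem_coe.1 hj)) hij
  refine ⟨eraseNone ((range m).image x), eraseNone ((range m).image y), ?_, ?_, ?_, ?_, ?_, ?_, ?_⟩
  · exact fun a ha => hER a (mem_eraseNone.1 ha)
  · exact fun b hb => hTQ b (mem_eraseNone.1 hb)
  · exact (card_eraseNone_le _).trans (card_image_le.trans (card_range m).le)
  · exact (card_eraseNone_le _).trans (card_image_le.trans (card_range m).le)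
  · have h1 := side h M R T (fun i : Fin m => x i) (fun i : Fin m => y i) hM
      (fun i j hij => Fin.ext (hx i j i.2 j.2 hij)) (fun i j hij => Fin.ext (hy i j i.2 j.2 hij))
      (fun i => hA i) huM
    rwa [image_fin, image_fin] at h1
  · have h1 := side h N R T (fun i : Fin m => x ((i : ℕ) + 1)) (fun i : Fin m => y i) hN
      (by
        intro i j hij
        have hij' : x ((i : ℕ) + 1) = x ((j : ℕ) + 1) := hij
        apply Fin.ext
        have hi := i.2
        have hj := j.2
        by_cases h1 : (i : ℕ) + 1 < m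
        · by_cases h2 : (j : ℕ) + 1 < m
          · have := hx _ _ h1 h2 hij'
            omega
          · rw [show (j : ℕ) + 1 = m by omega, h0] at hij'
            have := hx _ _ h1 (by omega) hij'
            omega
        · by_cases h2 : (j : ℕ) + 1 < m
          · rw [show (i : ℕ) + 1 = m by omega, h0] at hij'
            have := hx _ _ (by omega) h2 hij'
            omega
          · omega)
      (fun i j hij => Fin.ext (hy i j i.2 j.2 hij))
      (fun i => hB i)
      (by
        intro τ hτ
        have h2 := huN τ⁻¹ (by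
          intro i
          have h3 := hτ (τ⁻¹ i)
          have h4 : τ (τ⁻¹ i) = i := Equiv.apply_symm_apply τ i
          rw [h4] at h3
          exact h3)
        exact inv_eq_one.1 h2)
    rw [image_fin, image_shift x m hpx] at h1
    exact h1
  · have e1 : ∑ v ∈ eraseNone ((range m).image x), om v = ∑ p ∈ range m, wa om (x p) := by
      rw [sum_eraseNone, sum_image hinjx]
      refine sum_congr rfl fun p _ => ?_
      rcases x p with _ | a <;> rfl
    have e2 : c * ∑ v ∈ eraseNone ((range m).image y), om v = ∑ p ∈ range m, wb c om (y p) := by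
      rw [sum_eraseNone, sum_image hinjy, mul_sum]
      refine sum_congr rfl fun p _ => ?_
      rcases y p with _ | a
      · exact mul_zero c
      · rfl
    rw [e1, e2]
    have hg' : 0 < ∑ p ∈ range m, (wa om (x p) - wb c om (y p)) := hg
    rw [sum_sub_distrib] at hg'
    linarith

end Pool.Agent.Helper15.SR
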