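import Pool.Agent.Helper29.SR.Props
import Pool.Agent.Helper95.RC.Gns
import Pool.Agent.Helper85.RC.RepFV
import Pool.Agent.Helper48.RC.Polar

/-!
# MP_b55b7c_an: local comparison (packet SR-LocMax)
-/

open scoped ENNReal NNReal InnerProductSpace ComplexOrder
open Filter Topology

attribute [-instance] CStarMatrix.instAlgebra CStarMatrix.instModule CStarMatrix.instSMul
  CStarMatrix.instMulAction CStarMatrix.instDistribMulAction

noncomputable section
namespace RC
universe u

/-- Local comparison, with the older pieces as hypotheses. -/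
theorem locMaxP' (h1 : GnsP.{u}) (h2 : RepFVP.{u}) (h3 : PolarP.{u}) (h4 : LocAP.{u})
    (h5 : LocBP.{u}) : LocMaxP.{u} := by
  intro M _ _ _ φ a b m ha hb hm ε s hs hsε
  obtain ⟨H, _, _, _, π, ρ, ξ, hrep⟩ := h1 M φ
  obtain ⟨hFV, hc⟩ := h2 M φ H π ρ ξ hrep
  obtain ⟨va, hva, hpa, -, hpa1, -, hpa2, -⟩ := h3 H (Set.range ρ) hFV.star (π a) (hc a)
  obtain ⟨vb, hvb, hpb, -, hpb1, -, hpb2, -⟩ := h3 H (Set.range ρ) hFV.star (π b) (hc b)
  have hstar : ∀ x ∈ (Set.range ρ).centralizer, star x ∈ (Set.range ρ).centralizer := by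
    intro x hx y hy
    have h := hx (star y) (hFV.star y hy)
    have h' := congrArg star h
    simp only [star_mul, star_star] at h'
    exact h'.symm
  have hp : va * star va ∈ (Set.range ρ).centralizer :=
    Set.mul_mem_centralizer hva (hstar va hva)
  have hq : vb * star vb ∈ (Set.range ρ).centralizer :=
    Set.mul_mem_centralizer hvb (hstar vb hvb)
  obtain ⟨v, hv, hvp, hqv, hvp', hmv⟩ := h4 M φ H π ρ ξ hrep a b m (va * star va) (vb * star vb)
    ha hb hp hpa hpa1 hpa2 hq hpb hpb1 hpb2 hm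
  obtain ⟨X, hX⟩ := h5 M φ H π ρ ξ hrep a b (va * star va) (vb * star vb)
    ha hb hp hpa hpa1 hpa2 hq hpb hpb1 hpb2 v hv hvp hqv hvp' ε s hs hsε
  exact ⟨X, lt_of_le_of_lt (by linarith) hX⟩

/-- Local comparison. -/
theorem locMaxP (h4 : LocAP.{u}) (h5 : LocBP.{u}) : LocMaxP.{u} :=
  locMaxP' gnsP repFVP polarP h4 h5

end RC
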